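import Pool.Agent.Helper99.BK.Stmts

/-! Module ZE1: zero estimate in one additive and one multiplicative variable. -/

namespace Pool.Helper99.BK

open Polynomial

lemma ze1_coeff_prod {ι : Type*} (s : Finset ι) (f : ι → ℂ[X]) (d : ι → ℕ)
    (h : ∀ i ∈ s, (f i).natDegree ≤ d i) :
    (∏ i ∈ s, f i).natDegree ≤ ∑ i ∈ s, d i ∧
      (∏ i ∈ s, f i).coeff (∑ i ∈ s, d i) = ∏ i ∈ s, (f i).coeff (d i) := by
  classical
  induction s using Finset.induction_on with
  | empty => simp
  | insert a s ha ih =>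
    have ih' := ih (fun i hi => h i (Finset.mem_insert_of_mem hi))
    have ha' := h a (Finset.mem_insert_self a s)
    rw [Finset.prod_insert ha, Finset.sum_insert ha, Finset.prod_insert ha]
    refine ⟨?_, ?_⟩
    · exact le_trans Polynomial.natDegree_mul_le (add_le_add ha' ih'.1)
    · rw [Polynomial.coeff_mul_add_eq_of_natDegree_le ha' ih'.1, ih'.2]

lemma ze1_det {ι : Type*} [Fintype ι] [DecidableEq ι] (M : Matrix ι ι ℂ[X]) (d : ι → ℕ)
    (h : ∀ i j, (M i j).natDegree ≤ d j) :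
    M.det.natDegree ≤ ∑ j, d j ∧
      M.det.coeff (∑ j, d j) = (Matrix.of (fun i j => (M i j).coeff (d j))).det := by
  rw [Matrix.det_apply, Matrix.det_apply]
  refine ⟨?_, ?_⟩
  · refine Polynomial.natDegree_sum_le_of_forall_le _ _ ?_
    intro σ _
    refine le_trans (Polynomial.natDegree_smul_le _ _) ?_
    exact (ze1_coeff_prod Finset.univ (fun i => M (σ i) i) d (fun i _ => h _ _)).1
  · rw [Polynomial.finsetSum_coeff]
    refine Finset.sum_congr rfl ?_
    intro σ _
    rw [Polynomial.coeff_smul,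
      (ze1_coeff_prod Finset.univ (fun i => M (σ i) i) d (fun i _ => h _ _)).2]
    rfl

theorem st_ZE1 (hM : ST_MINOR) : ST_ZE1 := by
  classical
  intro G _ _ ζ η hη hmul K Lc x hx B1 B2 hvan hcard
  -- the polynomials
  let P : Fin Lc → ℂ[X] := fun l => ∑ k : Fin K, C (x (k, l)) * X ^ (k : ℕ)
  have hPcoeff : ∀ (l : Fin Lc) (k : Fin K), (P l).coeff (k : ℕ) = x (k, l) := by
    intro l k
    show (∑ k' : Fin K, C (x (k', l)) * X ^ (k' : ℕ)).coeff (k : ℕ) = x (k, l)
    rw [Polynomial.finsetSum_coeff, Finset.sum_eq_single k]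
    · simp
    · intro b _ hb
      rw [Polynomial.coeff_C_mul, Polynomial.coeff_X_pow, if_neg, mul_zero]
      intro hbk
      exact hb (Fin.ext hbk.symm)
    · intro hk
      exact absurd (Finset.mem_univ k) hk
  have hPeval : ∀ (l : Fin Lc) (z : ℂ), (P l).eval z = ∑ k : Fin K, x (k, l) * z ^ (k : ℕ) := by
    intro l z
    show (∑ k : Fin K, C (x (k, l)) * X ^ (k : ℕ)).eval z = _
    rw [Polynomial.eval_finsetSum]
    refine Finset.sum_congr rfl ?_
    intro k _
    simp
  have hPdeg : ∀ l, (P l).natDegree ≤ K := by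
    intro l
    refine Polynomial.natDegree_sum_le_of_forall_le _ _ ?_
    intro k _
    refine le_trans (Polynomial.natDegree_C_mul_X_pow_le _ _) ?_
    exact k.2.le
  let ι : Type := {l : Fin Lc // P l ≠ 0}
  obtain ⟨l0, hl0⟩ : ∃ l, P l ≠ 0 := by
    by_contra hcon
    apply hx
    funext kl
    obtain ⟨k, l⟩ := kl
    rw [← hPcoeff l k]
    have : P l = 0 := by
      by_contra h
      exact hcon ⟨l, h⟩
    rw [this]
    simp
  have hinj : ∀ y : ι → ℂ, (∀ r : {p : G // p ∈ B1}, ∑ j : ι, (η r.1) ^ (j.1 : ℕ) * y j = 0) →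
      y = 0 := by
    intro y hy
    let Q : ℂ[X] := ∑ j : ι, C (y j) * X ^ (j.1 : ℕ)
    have hQcoeff : ∀ j : ι, Q.coeff (j.1 : ℕ) = y j := by
      intro j
      show (∑ j' : ι, C (y j') * X ^ (j'.1 : ℕ)).coeff (j.1 : ℕ) = y j
      rw [Polynomial.finsetSum_coeff, Finset.sum_eq_single j]
      · simp
      · intro b _ hb
        rw [Polynomial.coeff_C_mul, Polynomial.coeff_X_pow, if_neg, mul_zero]
        intro hbk
        exact hb (Subtype.ext (Fin.ext hbk.symm))
      · intro hk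
        exact absurd (Finset.mem_univ j) hk
    have hQdeg : Q.degree < (Lc : ℕ) := by
      refine lt_of_le_of_lt (Polynomial.degree_sum_le _ _) ?_
      rw [Finset.sup_lt_iff (by exact_mod_cast WithBot.bot_lt_coe _)]
      intro j _
      refine lt_of_le_of_lt (Polynomial.degree_C_mul_X_pow_le _ _) ?_
      exact_mod_cast j.1.2
    have hQ0 : Q = 0 := by
      refine Polynomial.eq_zero_of_degree_lt_of_eval_finset_eq_zero (B1.image η) ?_ ?_
      · refine lt_of_lt_of_le hQdeg ?_
        exact_mod_cast hcard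
      · intro z hz
        obtain ⟨p, hp, rfl⟩ := Finset.mem_image.mp hz
        show (∑ j' : ι, C (y j') * X ^ (j'.1 : ℕ)).eval (η p) = 0
        rw [Polynomial.eval_finsetSum, ← hy ⟨p, hp⟩]
        refine Finset.sum_congr rfl ?_
        intro j _
        rw [Polynomial.eval_mul, Polynomial.eval_C, Polynomial.eval_pow, Polynomial.eval_X]
        exact mul_comm _ _
    funext j
    rw [← hQcoeff j, hQ0]
    simp
  obtain ⟨r, hr⟩ := hM ℂ {p : G // p ∈ B1} ι (fun r j => (η r.1) ^ (j.1 : ℕ)) hinj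
  let M : Matrix ι ι ℂ[X] := Matrix.of (fun i l =>
    (P l.1).comp (X + C (ζ (r i).1)) * C ((η (r i).1) ^ (l.1 : ℕ)))
  let d : ι → ℕ := fun l => (P l.1).natDegree
  have hcompdeg : ∀ (l : ι) (a : ℂ), ((P l.1).comp (X + C a)).natDegree = d l := by
    intro l a
    rw [Polynomial.natDegree_comp, Polynomial.natDegree_X_add_C, mul_one]
  have hcomplc : ∀ (l : ι) (a : ℂ), ((P l.1).comp (X + C a)).coeff (d l) =
      (P l.1).leadingCoeff := by
    intro l a
    have h1 : ((P l.1).comp (X + C a)).leadingCoeff = (P l.1).leadingCoeff := by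
      rw [Polynomial.leadingCoeff_comp (by rw [Polynomial.natDegree_X_add_C]; norm_num),
        Polynomial.leadingCoeff_X_add_C, one_pow, mul_one]
    rw [← h1, Polynomial.leadingCoeff, hcompdeg]
  have hMdeg : ∀ i j, (M i j).natDegree ≤ d j := by
    intro i j
    show ((P j.1).comp (X + C (ζ (r i).1)) * C ((η (r i).1) ^ (j.1 : ℕ))).natDegree ≤ d j
    refine le_trans (Polynomial.natDegree_mul_C_le _ _) ?_
    rw [hcompdeg]
  have hMcoeff : ∀ i j, (M i j).coeff (d j) =
      (P j.1).leadingCoeff * (η (r i).1) ^ (j.1 : ℕ) := by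
    intro i j
    show ((P j.1).comp (X + C (ζ (r i).1)) * C ((η (r i).1) ^ (j.1 : ℕ))).coeff (d j) = _
    rw [Polynomial.coeff_mul_C, hcomplc]
  have hdet := ze1_det M d hMdeg
  have hne : M.det ≠ 0 := by
    intro h0
    have h1 := hdet.2
    rw [h0, Polynomial.coeff_zero] at h1
    have h2 : (Matrix.of (fun i j => (M i j).coeff (d j))) =
        Matrix.of (fun i j => (fun l : ι => (P l.1).leadingCoeff) j *
          (Matrix.of (fun (i : ι) (j : ι) => (η (r i).1) ^ (j.1 : ℕ))) i j) := by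
      ext i j
      simp only [Matrix.of_apply]
      exact hMcoeff i j
    rw [h2, Matrix.det_mul_row] at h1
    rcases mul_eq_zero.mp h1.symm with h3 | h3
    · obtain ⟨j, _, hj⟩ := Finset.prod_eq_zero_iff.mp h3
      exact j.2 (Polynomial.leadingCoeff_eq_zero.mp hj)
    · exact hr h3
  have hdeg : M.det.natDegree ≤ K * Lc := by
    refine le_trans hdet.1 ?_
    refine le_trans (Finset.sum_le_card_nsmul _ _ K (fun j _ => hPdeg j.1)) ?_
    rw [smul_eq_mul, mul_comm]
    refine Nat.mul_le_mul_left K ?_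
    rw [Finset.card_univ]
    refine le_trans (Fintype.card_subtype_le _) ?_
    rw [Fintype.card_fin]
  refine le_trans ?_ hdeg
  refine Polynomial.card_le_degree_of_subset_roots ?_
  intro z hz
  obtain ⟨q, hq, rfl⟩ := Finset.mem_image.mp hz
  rw [Polynomial.mem_roots hne, Polynomial.IsRoot.def, ← Polynomial.coe_evalRingHom,
    RingHom.map_det]
  refine Matrix.exists_mulVec_eq_zero_iff.mp ⟨fun l : ι => (η q) ^ (l.1 : ℕ), ?_, ?_⟩
  · intro h0
    have := congrFun h0 ⟨l0, hl0⟩
    exact pow_ne_zero _ (hη q) this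
  · funext i
    show ∑ l : ι, (Polynomial.evalRingHom (ζ q)) (M i l) * (η q) ^ (l.1 : ℕ) = 0
    have h1 : ∀ l : ι, (Polynomial.evalRingHom (ζ q)) (M i l) * (η q) ^ (l.1 : ℕ) =
        (P l.1).eval (ζ ((r i).1 + q)) * (η ((r i).1 + q)) ^ (l.1 : ℕ) := by
      intro l
      show (Polynomial.evalRingHom (ζ q)) ((P l.1).comp (X + C (ζ (r i).1)) *
        C ((η (r i).1) ^ (l.1 : ℕ))) * (η q) ^ (l.1 : ℕ) = _
      rw [Polynomial.coe_evalRingHom, Polynomial.eval_mul, Polynomial.eval_comp,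
        Polynomial.eval_add, Polynomial.eval_X, Polynomial.eval_C, Polynomial.eval_C,
        map_add, hmul, mul_pow, mul_assoc, add_comm (ζ q)]
    rw [Finset.sum_congr rfl (fun l _ => h1 l)]
    have h2 : ∑ l : ι, (P l.1).eval (ζ ((r i).1 + q)) * (η ((r i).1 + q)) ^ (l.1 : ℕ) =
        ∑ l : Fin Lc, (P l).eval (ζ ((r i).1 + q)) * (η ((r i).1 + q)) ^ (l : ℕ) := by
      rw [← Fintype.sum_subtype_add_sum_subtype (fun l : Fin Lc => P l ≠ 0)
        (fun l : Fin Lc => (P l).eval (ζ ((r i).1 + q)) * (η ((r i).1 + q)) ^ (l : ℕ))]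
      have h3 : ∑ l : {l : Fin Lc // ¬ P l ≠ 0},
          (P l.1).eval (ζ ((r i).1 + q)) * (η ((r i).1 + q)) ^ (l.1 : ℕ) = 0 := by
        refine Finset.sum_eq_zero ?_
        intro l _
        rw [not_not.mp l.2, Polynomial.eval_zero, zero_mul]
      rw [h3, add_zero]
    rw [h2, ← hvan (r i).1 (r i).2 q hq, Fintype.sum_prod_type_right]
    refine Finset.sum_congr rfl ?_
    intro l _
    rw [hPeval, Finset.sum_mul]
    refine Finset.sum_congr rfl ?_
    intro k _
    rw [mul_assoc]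

end Pool.Helper99.BK
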